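import Pool.Agent.Helper81.MH.Goals

/-! # MH DM: `Dag` implies `Mho` -/

set_option autoImplicit false

namespace Pool.Agent.Helper49.MH

open Set Cardinal Filter
open Pool.Agent.Helper81.SB Pool.Agent.Helper81.MH

/-- Infinite sets with finite initial segments are enumerated increasingly. -/
lemma enum_exists (C : Set W) (hC : C.Infinite) (hf : ∀ ξ ∈ C, {η | η ∈ C ∧ η < ξ}.Finite) :
    ∃ c : ℕ → W, StrictMono c ∧ range c = C := by
  have hnext : ∀ x ∈ C, ∃ y ∈ C, x < y ∧ ∀ z ∈ C, x < z → y ≤ z := by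
    intro x hx
    have hne : {y | y ∈ C ∧ x < y}.Nonempty := by
      by_contra hcon
      rw [Set.not_nonempty_iff_eq_empty] at hcon
      apply hC
      apply ((hf x hx).insert x).subset
      intro y hy
      rcases lt_trichotomy y x with h | h | h
      · exact Or.inr ⟨hy, h⟩
      · exact Or.inl h
      · have : y ∈ {y | y ∈ C ∧ x < y} := ⟨hy, h⟩
        rw [hcon] at this
        exact absurd this (Set.notMem_empty _)
    obtain ⟨y, hy, hmin⟩ := WellFounded.has_min (wellFounded_lt (α := W)) _ hne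
    exact ⟨y, hy.1, hy.2, fun z hz hxz => not_lt.mp (hmin z ⟨hz, hxz⟩)⟩
  obtain ⟨c0, hc0, hmin0⟩ := WellFounded.has_min (wellFounded_lt (α := W)) C hC.nonempty
  choose! nx nx1 nx2 nx3 using hnext
  let c : ℕ → W := fun n => Nat.rec c0 (fun _ x => nx x) n
  have hcs : ∀ n, c (n + 1) = nx (c n) := fun n => rfl
  have hcC : ∀ n, c n ∈ C := by
    intro n
    induction n with
    | zero => exact hc0
    | succ n ih => rw [hcs]; exact nx1 _ ih
  have hmono : StrictMono c := strictMono_nat_of_lt_succ fun n => by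
    rw [hcs]; exact nx2 _ (hcC n)
  refine ⟨c, hmono, ?_⟩
  apply Set.Subset.antisymm
  · rintro _ ⟨n, rfl⟩
    exact hcC n
  · intro ξ hξ
    by_contra hcon
    have hne : ∀ n, c n ≠ ξ := fun n h => hcon ⟨n, h⟩
    have hlt : ∀ n, c n < ξ := by
      intro n
      induction n with
      | zero => exact lt_of_le_of_ne (not_lt.mp (hmin0 ξ hξ)) (hne 0)
      | succ n ih =>
        refine lt_of_le_of_ne ?_ (hne (n + 1))
        rw [hcs]
        exact nx3 _ (hcC n) ξ hξ ih
    have : (range c).Infinite := Set.infinite_range_of_injective hmono.injective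
    exact this ((hf ξ hξ).subset (by rintro _ ⟨n, rfl⟩; exact ⟨hcC n, hlt n⟩))

theorem goal_DM : Goal_DM := by
  rintro ⟨S0, hcard, hfin, hdag⟩
  haveI : Nonempty W := by
    by_contra h
    rw [not_nonempty_iff] at h
    exact W_not_countable (Finite.to_countable)
  have key : ∀ C : Set W, ∃ c : ℕ → W, C.Infinite → (∀ ξ ∈ C, {η | η ∈ C ∧ η < ξ}.Finite) →
      StrictMono c ∧ range c = C := by
    intro C
    by_cases h : C.Infinite ∧ ∀ ξ ∈ C, {η | η ∈ C ∧ η < ξ}.Finite
    · obtain ⟨c, hc⟩ := enum_exists C h.1 h.2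
      exact ⟨c, fun _ _ => hc⟩
    · exact ⟨fun _ => Classical.arbitrary W, fun h1 h2 => absurd ⟨h1, h2⟩ h⟩
  choose c hc using key
  refine ⟨(fun p : Set W × (W → ℕ) => ((c p.1, fun i => p.2 (c p.1 (i + 1))) :
    (ℕ → W) × (ℕ → ℕ))) '' {p | p ∈ S0 ∧ p.1.Infinite}, ?_, ?_, ?_⟩
  · exact mk_image_le.trans ((mk_le_mk_of_subset fun p hp => hp.1).trans hcard)
  · rintro _ ⟨p, ⟨hp, hinf⟩, rfl⟩
    exact (hc p.1 hinf (hfin p hp)).1.monotone
  · intro F
    obtain ⟨p, hp, hn⟩ := hdag {γ | ∀ β < γ, F β < γ} (by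
      intro hcount
      obtain ⟨γ0, hγ0⟩ := W_bdd _ hcount
      obtain ⟨γ, hγ, hcl⟩ := exists_closed F γ0
      exact absurd (hγ0 γ hcl) (not_lt.mpr hγ.le))
    have hinf : p.1.Infinite := (hn 0).mono fun ξ hξ => hξ.1
    obtain ⟨hm, hr⟩ := hc p.1 hinf (hfin p hp)
    refine ⟨_, ⟨p, ⟨hp, hinf⟩, rfl⟩, ?_⟩
    intro n hcon
    apply hn n
    apply ((hcon.image fun i => c p.1 (i + 1)).insert (c p.1 0)).subset
    rintro ξ ⟨h1, h2, h3⟩
    have : ξ ∈ range (c p.1) := by rw [hr]; exact h1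
    obtain ⟨i, rfl⟩ := this
    cases i with
    | zero => exact Or.inl rfl
    | succ i =>
      right
      refine ⟨i, ⟨h3, ?_⟩, rfl⟩
      exact (h2 _ (hm (Nat.lt_succ_self i))).le

end Pool.Agent.Helper49.MH
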